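import Pool.Agent.W282.KirchMain

/-!
# MP_ff3a4f_co, Q1: a positive-fraction version of Kirchberger's theorem (full positive answer)

`Separated P Q`: some hyperplane `{x | ∑ w i * x i = t}`, `w ≠ 0`, has `P` in one of its open
half-spaces and `Q` in the other.
`GeneralPosition P`: no `d + 1` points of `P` lie on a common affine hyperplane.

For every `d ≥ 1` the function `g ε = 16 ε ^ (1 / ((d + 1) (d + 2)))` has the property asked for
in Q1.

Idea of the proof. Suppose that every separated pair `A'`, `B'` leaves out more than `δ N` points.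
If the trace of `A`, `B` on an `s`-subset `T` is separated, a separating hyperplane can be moved
until it passes through `d` points of `T` (and still weakly separates `T`). For each `d`-subset
there are only two candidates (one hyperplane, two orientations), and by a perturbation each
candidate misclassifies more than `δ N` points of `A ∪ B`, all of which `T` has to avoid. So for
`s` of order `δ ^ (-(d + 1))` at most half of the `s`-subsets are separated. By Kirchberger's
theorem each of the others contains a `(d + 2)`-subset that is not good, and double counting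
gives a positive fraction of such subsets.
-/

open Finset Filter Topology

namespace Pool.Agent.Results.MP_ff3a4f_co.FractionalKirchberger

open Pool.Agent.W282.Kirch

open Classical in
theorem result (d : ℕ) (hd : 1 ≤ d) :
    ∃ g : ℝ → ℝ, Tendsto g (𝓝[>] 0) (𝓝 0) ∧
      (∀ ε, g ε = 16 * ε ^ (1 / (((d : ℝ) + 1) * (d + 2)))) ∧
      ∀ ε : ℝ, 0 ≤ ε → ∀ (N : ℕ) (A B : Finset (Fin d → ℝ)), d + 1 ≤ 2 * N →
        A.card = N → B.card = N → Disjoint A B → GeneralPosition (A ∪ B) →
        (1 - ε) * ((2 * N).choose (d + 2) : ℝ) ≤
          ({S ∈ (A ∪ B).powersetCard (d + 2) | Separated (A ∩ S) (B ∩ S)}).card →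
        ∃ A' ⊆ A, ∃ B' ⊆ B, Separated A' B' ∧
          (1 - g ε) * N ≤ A'.card ∧ (1 - g ε) * N ≤ B'.card := by
  refine ⟨fun ε => 16 * ε ^ (1 / (((d : ℝ) + 1) * (d + 2))), ?_, fun ε => rfl, ?_⟩
  · have hpos : (0 : ℝ) < 1 / (((d : ℝ) + 1) * (d + 2)) := by positivity
    have h1 : Tendsto (fun ε : ℝ => 16 * ε ^ (1 / (((d : ℝ) + 1) * (d + 2)))) (𝓝 0)
        (𝓝 (16 * (0 : ℝ) ^ (1 / (((d : ℝ) + 1) * (d + 2))))) :=
      ((Real.continuousAt_rpow_const 0 _ (Or.inr hpos.le)).tendsto).const_mul 16
    rw [Real.zero_rpow hpos.ne', mul_zero] at h1
    exact h1.mono_left nhdsWithin_le_nhds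
  · intro ε hε N A B hN hA hB hAB hgp hcard
    rcases Nat.lt_or_ge (d + 1) (2 * N) with h | h
    · exact main hd ε hε N h hA hB hAB hgp _ (fun S => by rw [mem_filter]) hcard
    · -- `2 N = d + 1`: the points are affinely independent
      have hPc : (A ∪ B).card = 2 * N := by rw [card_union_of_disjoint hAB]; omega
      have hne : (A ∪ B).Nonempty := card_pos.1 (by omega)
      obtain ⟨y, hy⟩ := hne
      have hSc : ((A ∪ B).erase y).card = d := by rw [card_erase_of_mem hy]; omega
      obtain ⟨f, hf, hf0⟩ := exists_ker1 hSc.le
      have hfy : ev y f ≠ 0 := by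
        intro h0
        have := gp_card hgp hf0 (Subset.refl _) (fun x hx => by
          rcases eq_or_ne x y with rfl | hxy
          · exact h0
          · exact hf x (mem_erase.2 ⟨hxy, hx⟩))
        omega
      have hsep : Separated A B := by
        have hcase : ∀ f : (Fin d → ℝ) × ℝ, f ≠ 0 → (∀ x ∈ (A ∪ B).erase y, ev x f = 0) →
            (y ∈ A → 0 < ev y f) → (y ∈ B → ev y f < 0) → Separated A B := by
          intro f hf0 hf h1 h2
          refine perturb hd hgp (by omega) hAB (erase_subset _ _) hSc hf0 hf ?_ ?_
          · intro x hx hxS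
            have : x = y := by
              by_contra hxy
              exact hxS (mem_erase.2 ⟨hxy, mem_union_left _ hx⟩)
            subst this
            exact h1 hx
          · intro x hx hxS
            have : x = y := by
              by_contra hxy
              exact hxS (mem_erase.2 ⟨hxy, mem_union_right _ hx⟩)
            subst this
            exact h2 hx
        have hneg : ∀ x ∈ (A ∪ B).erase y, ev x (-f) = 0 := by
          intro x hx
          rw [map_neg, hf x hx, neg_zero]
        rcases mem_union.1 hy with hyA | hyB
        · have hyB : y ∉ B := fun h => (Finset.disjoint_left.1 hAB hyA) h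
          rcases lt_or_gt_of_ne hfy with h1 | h1
          · exact hcase (-f) (neg_ne_zero.2 hf0) hneg (fun _ => by rw [map_neg]; linarith)
              (fun h => absurd h hyB)
          · exact hcase f hf0 hf (fun _ => h1) (fun h => absurd h hyB)
        · have hyA : y ∉ A := fun h => (Finset.disjoint_left.1 hAB h) hyB
          rcases lt_or_gt_of_ne hfy with h1 | h1
          · exact hcase f hf0 hf (fun h => absurd h hyA) (fun _ => h1)
          · exact hcase (-f) (neg_ne_zero.2 hf0) hneg (fun h => absurd h hyA)
              (fun _ => by rw [map_neg]; linarith)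
      have hN0 : (0 : ℝ) ≤ N := Nat.cast_nonneg _
      have hg : (0 : ℝ) ≤ 16 * ε ^ (1 / (((d : ℝ) + 1) * (d + 2))) := by positivity
      refine ⟨A, Subset.refl _, B, Subset.refl _, hsep, ?_, ?_⟩
      · rw [hA]; simp only; nlinarith
      · rw [hB]; simp only; nlinarith

end Pool.Agent.Results.MP_ff3a4f_co.FractionalKirchberger
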